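import Pool.Agent.W306.EL.Stm

namespace Pool.Agent.W108.EL

open Pool.Agent.W306.EL

theorem t_K4 : S_K4 := by
  intro a b c d h1 h2 h3 h4
  have hS : cr a b c + cr a c d = cr a b d + cr b c d := by
    unfold cr
    ring
  have hpos : 0 < cr a b c + cr a c d := by linarith
  obtain ⟨S, hSd⟩ : ∃ S, S = cr a b c + cr a c d := ⟨_, rfl⟩
  have hS0 : 0 < S := by rw [hSd]; exact hpos
  obtain ⟨s, hs⟩ : ∃ s, s = cr a b d / S := ⟨_, rfl⟩
  obtain ⟨t, ht⟩ : ∃ t, t = cr a b c / S := ⟨_, rfl⟩
  have hs0 : 0 < s := by rw [hs]; exact div_pos h2 hS0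
  have hs1 : s < 1 := by
    rw [hs, div_lt_one hS0]
    linarith
  have ht0 : 0 < t := by rw [ht]; exact div_pos h1 hS0
  have ht1 : t < 1 := by
    rw [ht, div_lt_one hS0]
    linarith
  have hsS : s * S = cr a b d := by rw [hs]; field_simp
  have htS : t * S = cr a b c := by rw [ht]; field_simp
  have key : ∀ i : Fin 2, S * a i + cr a b d * (c i - a i) = S * b i + cr a b c * (d i - b i) := by
    intro i
    rw [hSd]
    fin_cases i
    · simp only [cr, Fin.zero_eta]
      ring
    · simp only [cr, Fin.mk_one]
      ring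
  have hX : (AffineMap.lineMap a c s : EuclideanSpace ℝ (Fin 2)) = AffineMap.lineMap b d t := by
    ext i
    have e1 : (AffineMap.lineMap a c s : EuclideanSpace ℝ (Fin 2)) i = a i + s * (c i - a i) := by
      simp [AffineMap.lineMap_apply]
      ring
    have e2 : (AffineMap.lineMap b d t : EuclideanSpace ℝ (Fin 2)) i = b i + t * (d i - b i) := by
      simp [AffineMap.lineMap_apply]
      ring
    rw [e1, e2]
    have h := key i
    rw [← hsS, ← htS] at h
    have h' : S * (a i + s * (c i - a i)) = S * (b i + t * (d i - b i)) := by linarith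
    exact mul_left_cancel₀ hS0.ne' h'
  obtain ⟨X, hXd⟩ : ∃ X : EuclideanSpace ℝ (Fin 2), X = AffineMap.lineMap a c s := ⟨_, rfl⟩
  have d1 : dist a X = s * dist a c := by
    rw [hXd, dist_left_lineMap, Real.norm_eq_abs, abs_of_pos hs0]
  have d2 : dist X c = (1 - s) * dist a c := by
    rw [hXd, dist_lineMap_right, Real.norm_eq_abs, abs_of_pos (by linarith)]
  have d3 : dist b X = t * dist b d := by
    rw [hXd, hX, dist_left_lineMap, Real.norm_eq_abs, abs_of_pos ht0]
  have d4 : dist X d = (1 - t) * dist b d := by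
    rw [hXd, hX, dist_lineMap_right, Real.norm_eq_abs, abs_of_pos (by linarith)]
  have t2 : dist c d ≤ dist c X + dist X d := dist_triangle _ _ _
  have t1 : dist a b < dist a X + dist X b := by
    refine lt_of_le_of_ne (dist_triangle _ _ _) ?_
    intro he
    have hw : Wbtw ℝ a X b := dist_add_dist_eq_iff.1 he.symm
    obtain ⟨r, -, hr⟩ := hw
    have c1 : cr a b X = s * cr a b c := by
      rw [hXd]
      have e1 : ∀ i, (AffineMap.lineMap a c s : EuclideanSpace ℝ (Fin 2)) i
          = a i + s * (c i - a i) := by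
        intro i
        simp [AffineMap.lineMap_apply]
        ring
      unfold cr
      rw [e1, e1]
      ring
    have c2 : cr a b X = 0 := by
      rw [← hr]
      have e1 : ∀ i, (AffineMap.lineMap a b r : EuclideanSpace ℝ (Fin 2)) i
          = a i + r * (b i - a i) := by
        intro i
        simp [AffineMap.lineMap_apply]
        ring
      unfold cr
      rw [e1, e1]
      ring
    have := mul_pos hs0 h1
    linarith
  rw [dist_comm c X] at t2
  rw [dist_comm X b] at t1
  nlinarith [d1, d2, d3, d4]

end Pool.Agent.W108.EL
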